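import Pool.Agent.H606R2.GPP.Defs

/-!
# Straight-line drawings with short and long edges

`Inst`: a graph together with a partition of its edges into short and long ones.
`Realizable`: it has a straight-line drawing in which the edges of length at most one are exactly
the short ones.
-/

namespace Pool.Agent.NPC.Q328.LS

open Pool.Agent.NPC.ER.GPP (Same IsDrawing)

/-- An instance `(V, S, L)`: the list of the vertices (natural numbers), the list of the short edges
and the list of the long edges (pairs of vertices). -/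
abbrev Inst : Type := List ℕ × List (ℕ × ℕ) × List (ℕ × ℕ)

/-- `(V, S, L)` is an instance: the pairs in `S` and in `L` consist of two distinct members of `V`,
so that `(V, S ++ L)` is a finite simple graph (`(u, v)` and `(v, u)` denote the same edge), and no
edge is both in `S` and in `L`. -/
def IsInst (G : Inst) : Prop :=
  (∀ e ∈ G.2.1 ++ G.2.2, e.1 ∈ G.1 ∧ e.2 ∈ G.1 ∧ e.1 ≠ e.2) ∧
    ∀ e ∈ G.2.1, ∀ f ∈ G.2.2, ¬ Same e f

/-- Adjacency in the underlying graph. -/
def Adj (G : Inst) (u v : ℕ) : Prop := (u, v) ∈ G.2.1 ++ G.2.2 ∨ (v, u) ∈ G.2.1 ++ G.2.2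

/-- The underlying graph is a complete bipartite graph `K_{m,n}`, `m, n ≥ 1`: the vertex set is the
disjoint union of two nonempty sets `A` and `B`, and the edges join exactly the members of `A` with
the members of `B`. -/
def IsCompleteBipartite (G : Inst) : Prop :=
  ∃ A B : Finset ℕ, A.Nonempty ∧ B.Nonempty ∧ Disjoint A B ∧ (∀ v, v ∈ G.1 ↔ v ∈ A ∨ v ∈ B) ∧
    ∀ u v, Adj G u v ↔ (u ∈ A ∧ v ∈ B) ∨ (u ∈ B ∧ v ∈ A)

/-- The Euclidean length of the edge `e` in the drawing `p`. -/
noncomputable def len (p : ℕ → ℝ × ℝ) (e : ℕ × ℕ) : ℝ :=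
  Real.sqrt (((p e.1).1 - (p e.2).1) ^ 2 + ((p e.1).2 - (p e.2).2) ^ 2)

/-- Long/short edge realizability: the graph has a straight-line drawing (distinct points for the
vertices, no vertex on the segment of an edge other than its endpoints) in which the short edges
have length at most `1` and the long edges have length more than `1`. -/
def Realizable (G : Inst) : Prop :=
  ∃ p : ℕ → ℝ × ℝ, IsDrawing G.1 (G.2.1 ++ G.2.2) p ∧ (∀ e ∈ G.2.1, len p e ≤ 1) ∧
    ∀ e ∈ G.2.2, 1 < len p e

end Pool.Agent.NPC.Q328.LS
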