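import Pool.Agent.Q328.LS.Red

/-!
# Realizations of sign matrices give drawings
-/

namespace Pool.Agent.NPC.Q328.LS

open Pool.Agent.NPC Pool.Agent.NPC.ER Pool.Agent.NPC.ER.Pat
open Pool.Agent.NPC.ER.GPP (Same IsDrawing D ev_pos ev_ne ev_all mem_seg_iff)
open scoped Topology
open Filter Matrix

variable {M : List (List Bool)}

/-- Strict realizations. -/
structure Strict (M : List (List Bool)) (p : ℕ → ℝ × ℝ) : Prop where
  s : ∀ i ≤ M.length, ∀ k ≤ 2 * wid M, sh M i k = true → sq p (2 * i, 2 * k + 1) < 1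
  l : ∀ i ≤ M.length, ∀ k ≤ 2 * wid M, sh M i k = false → 1 < sq p (2 * i, 2 * k + 1)

/-- The positions of the vertices. -/
noncomputable def pos (M : List (List Bool)) (y : ℕ → ℕ → ℝ) (u : ℕ → ℝ × ℝ) (g : ℕ → ℝ) (t : ℝ)
    (v : ℕ) : ℝ × ℝ :=
  if v % 2 = 0 then (if v / 2 < M.length then (t * y (v / 2) 0, t * y (v / 2) 1) else (10, 0))
  else if v / 2 < 2 * wid M then
    (if v / 2 % 2 = 0 then ((1 - t * g (v / 2 / 2)) * (u (v / 2 / 2)).1,
        (1 - t * g (v / 2 / 2)) * (u (v / 2 / 2)).2)
      else (-((1 + t * g (v / 2 / 2)) * (u (v / 2 / 2)).1),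
        -((1 + t * g (v / 2 / 2)) * (u (v / 2 / 2)).2)))
    else (-10, 0)

theorem exists_strict {m : ℕ} (hM : Rect m M) (h : SRN 2 M) : ∃ p, Strict M p := by
  obtain ⟨y, η, c, hη, hy⟩ := h
  have hN : ∀ j, 0 < Real.sqrt (η j 0 ^ 2 + η j 1 ^ 2) := fun j => by
    apply Real.sqrt_pos.2
    have := hη j
    positivity
  have hN2 : ∀ j, Real.sqrt (η j 0 ^ 2 + η j 1 ^ 2) ^ 2 = η j 0 ^ 2 + η j 1 ^ 2 := fun j =>
    Real.sq_sqrt (by positivity)
  obtain ⟨N, hNe⟩ : ∃ N : ℕ → ℝ, N = fun j => Real.sqrt (η j 0 ^ 2 + η j 1 ^ 2) := ⟨_, rfl⟩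
  have hN' : ∀ j, 0 < N j := fun j => by rw [hNe]; exact hN j
  have hN2' : ∀ j, N j ^ 2 = η j 0 ^ 2 + η j 1 ^ 2 := fun j => by rw [hNe]; exact hN2 j
  obtain ⟨u, hu⟩ : ∃ u : ℕ → ℝ × ℝ, u = fun j => (η j 0 / N j, η j 1 / N j) := ⟨_, rfl⟩
  obtain ⟨g, hg⟩ : ∃ g : ℕ → ℝ, g = fun j => c j / N j := ⟨_, rfl⟩
  have hu1 : ∀ j, (u j).1 ^ 2 + (u j).2 ^ 2 = 1 := fun j => by
    have h1 := hN' j
    have h2 := hN2' j
    rw [hu]
    simp only
    rw [div_pow, div_pow, ← add_div, ← h2]
    exact div_self (by positivity)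
  have hL : ∀ i < M.length, ∀ j < wid M,
      0 < sgn (ent M i j) * (g j + (y i 0 * (u j).1 + y i 1 * (u j).2)) := by
    intro i hi j hj
    have hjw : j < M[i].length := by rwa [wid_eq hM hi]
    have h1 := hy i hi j hjw
    rw [ent_eq hi hjw]
    have e : g j + (y i 0 * (u j).1 + y i 1 * (u j).2) =
        (c j + ∑ k ∈ Finset.range 2, y i k * η j k) / N j := by
      rw [Finset.sum_range_succ, Finset.sum_range_one, hg, hu]
      have := (hN' j).ne'
      field_simp
    rw [e, ← mul_div_assoc]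
    exact div_pos h1 (hN' j)
  -- the bound for t
  have ev : ∀ᶠ t in 𝓝[>] (0 : ℝ), (∀ i < M.length, ∀ j < wid M,
      0 < 2 * (sgn (ent M i j) * (g j + (y i 0 * (u j).1 + y i 1 * (u j).2))) +
        t * (y i 0 ^ 2 + y i 1 ^ 2 + 2 * g j * (y i 0 * (u j).1 + y i 1 * (u j).2) + g j ^ 2) ∧
      0 < 2 * (sgn (ent M i j) * (g j + (y i 0 * (u j).1 + y i 1 * (u j).2))) +
        t * -(y i 0 ^ 2 + y i 1 ^ 2 + 2 * g j * (y i 0 * (u j).1 + y i 1 * (u j).2) + g j ^ 2)) ∧
      (∀ i < M.length, 0 < 1 + t * y i 0 ∧ 0 < 1 + t * -y i 0) ∧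
      (∀ j < wid M, 0 < 1 + t * g j ∧ 0 < 1 + t * -g j) := by
    refine Filter.Eventually.and ?_ (Filter.Eventually.and ?_ ?_)
    · refine ev_all fun i hi => ev_all fun j hj => ?_
      have := hL i hi j hj
      exact (ev_pos _ (by linarith)).and (ev_pos _ (by linarith))
    · exact ev_all fun i hi => (ev_pos _ one_pos).and (ev_pos _ one_pos)
    · exact ev_all fun i hi => (ev_pos _ one_pos).and (ev_pos _ one_pos)
  obtain ⟨t, ⟨e1, e2, e3⟩, ht⟩ := (ev.and self_mem_nhdsWithin).exists
  have ht : 0 < t := ht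
  have hsq : ∀ i < M.length, ∀ j < wid M,
      sq (pos M y u g t) (2 * i, 2 * (2 * j) + 1) = 1 - 2 * t * (g j + (y i 0 * (u j).1 +
        y i 1 * (u j).2)) + t ^ 2 * (y i 0 ^ 2 + y i 1 ^ 2 + 2 * g j * (y i 0 * (u j).1 +
        y i 1 * (u j).2) + g j ^ 2) ∧
      sq (pos M y u g t) (2 * i, 2 * (2 * j + 1) + 1) = 1 + 2 * t * (g j + (y i 0 * (u j).1 +
        y i 1 * (u j).2)) + t ^ 2 * (y i 0 ^ 2 + y i 1 ^ 2 + 2 * g j * (y i 0 * (u j).1 +
        y i 1 * (u j).2) + g j ^ 2) := by
    intro i hi j hj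
    have h1 := hu1 j
    have p1 : pos M y u g t (2 * i) = (t * y i 0, t * y i 1) := by
      unfold pos
      rw [if_pos (by omega), show 2 * i / 2 = i by omega, if_pos hi]
    have p2 : pos M y u g t (2 * (2 * j) + 1) =
        ((1 - t * g j) * (u j).1, (1 - t * g j) * (u j).2) := by
      unfold pos
      rw [if_neg (by omega), show (2 * (2 * j) + 1) / 2 = 2 * j by omega, if_pos (by omega),
        if_pos (by omega), show 2 * j / 2 = j by omega]
    have p3 : pos M y u g t (2 * (2 * j + 1) + 1) =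
        (-((1 + t * g j) * (u j).1), -((1 + t * g j) * (u j).2)) := by
      unfold pos
      rw [if_neg (by omega), show (2 * (2 * j + 1) + 1) / 2 = 2 * j + 1 by omega,
        if_pos (by omega), if_neg (by omega), show (2 * j + 1) / 2 = j by omega]
    constructor
    · unfold sq
      simp only [p1, p2]
      linear_combination (1 - t * g j) ^ 2 * h1
    · unfold sq
      simp only [p1, p3]
      linear_combination (1 + t * g j) ^ 2 * h1
  have hrow : pos M y u g t (2 * M.length) = (10, 0) := by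
    unfold pos
    rw [if_pos (by omega), if_neg (by omega)]
  have hcol : pos M y u g t (2 * (2 * wid M) + 1) = (-10, 0) := by
    unfold pos
    rw [if_neg (by omega), if_neg (by omega)]
  refine ⟨pos M y u g t, ?_, ?_⟩
  · intro i hi k hk hsh
    have hik : i < M.length ∧ k < 2 * wid M := by
      unfold sh at hsh
      rw [Bool.and_eq_true, decide_eq_true_eq] at hsh
      exact hsh.1
    obtain ⟨hi', hk'⟩ := hik
    unfold sh at hsh
    rw [decide_eq_true (show i < M.length ∧ k < 2 * wid M from ⟨hi', hk'⟩), Bool.true_and] at hsh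
    obtain ⟨j, hj⟩ : ∃ j, k = 2 * j ∨ k = 2 * j + 1 := ⟨k / 2, by omega⟩
    rcases hj with rfl | rfl
    · rw [if_pos (by omega), show 2 * j / 2 = j by omega] at hsh
      have hj : j < wid M := by omega
      obtain ⟨a1, a2⟩ := e1 i hi' j hj
      rw [hsh, sgn_true] at a1 a2
      rw [(hsq i hi' j hj).1]
      nlinarith
    · rw [if_neg (by omega), show (2 * j + 1) / 2 = j by omega] at hsh
      have hj : j < wid M := by omega
      have hsh' : ent M i j = false := by simpa using hsh
      obtain ⟨a1, a2⟩ := e1 i hi' j hj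
      rw [hsh', sgn_false] at a1 a2
      rw [(hsq i hi' j hj).2]
      nlinarith
  · intro i hi k hk hsh
    by_cases hi' : i < M.length
    · by_cases hk' : k < 2 * wid M
      · unfold sh at hsh
        rw [decide_eq_true (show i < M.length ∧ k < 2 * wid M from ⟨hi', hk'⟩), Bool.true_and]
          at hsh
        obtain ⟨j, hj⟩ : ∃ j, k = 2 * j ∨ k = 2 * j + 1 := ⟨k / 2, by omega⟩
        rcases hj with rfl | rfl
        · rw [if_pos (by omega), show 2 * j / 2 = j by omega] at hsh
          have hj : j < wid M := by omega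
          obtain ⟨a1, a2⟩ := e1 i hi' j hj
          rw [hsh, sgn_false] at a1 a2
          rw [(hsq i hi' j hj).1]
          nlinarith
        · rw [if_neg (by omega), show (2 * j + 1) / 2 = j by omega] at hsh
          have hj : j < wid M := by omega
          have hsh' : ent M i j = true := by simpa using hsh
          obtain ⟨a1, a2⟩ := e1 i hi' j hj
          rw [hsh', sgn_true] at a1 a2
          rw [(hsq i hi' j hj).2]
          nlinarith
      · have hk2 : k = 2 * wid M := by omega
        subst hk2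
        have p1 : pos M y u g t (2 * i) = (t * y i 0, t * y i 1) := by
          unfold pos
          rw [if_pos (by omega), show 2 * i / 2 = i by omega, if_pos hi']
        unfold sq
        simp only [p1, hcol]
        obtain ⟨a1, a2⟩ := e2 i hi'
        nlinarith [sq_nonneg (t * y i 1)]
    · have hi2 : i = M.length := by omega
      subst hi2
      by_cases hk' : k < 2 * wid M
      · obtain ⟨j, hj⟩ : ∃ j, k = 2 * j ∨ k = 2 * j + 1 := ⟨k / 2, by omega⟩
        rcases hj with rfl | rfl
        · have hj : j < wid M := by omega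
          have p2 : pos M y u g t (2 * (2 * j) + 1) =
              ((1 - t * g j) * (u j).1, (1 - t * g j) * (u j).2) := by
            unfold pos
            rw [if_neg (by omega), show (2 * (2 * j) + 1) / 2 = 2 * j by omega, if_pos (by omega),
              if_pos (by omega), show 2 * j / 2 = j by omega]
          obtain ⟨a1, a2⟩ := e3 j hj
          have b1 : (u j).1 ≤ 1 := by nlinarith [hu1 j, sq_nonneg (u j).2]
          have b2 : -1 ≤ (u j).1 := by nlinarith [hu1 j, sq_nonneg (u j).2]
          have b3 : (1 - t * g j) * (u j).1 ≤ 2 := by nlinarith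
          unfold sq
          simp only [p2, hrow]
          nlinarith [sq_nonneg ((1 - t * g j) * (u j).2)]
        · have hj : j < wid M := by omega
          have p3 : pos M y u g t (2 * (2 * j + 1) + 1) =
              (-((1 + t * g j) * (u j).1), -((1 + t * g j) * (u j).2)) := by
            unfold pos
            rw [if_neg (by omega), show (2 * (2 * j + 1) + 1) / 2 = 2 * j + 1 by omega,
              if_pos (by omega), if_neg (by omega), show (2 * j + 1) / 2 = j by omega]
          obtain ⟨a1, a2⟩ := e3 j hj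
          have b1 : (u j).1 ≤ 1 := by nlinarith [hu1 j, sq_nonneg (u j).2]
          have b2 : -1 ≤ (u j).1 := by nlinarith [hu1 j, sq_nonneg (u j).2]
          have b3 : -((1 + t * g j) * (u j).1) ≤ 2 := by nlinarith
          unfold sq
          simp only [p3, hrow]
          nlinarith [sq_nonneg ((1 + t * g j) * (u j).2)]
      · have hk2 : k = 2 * wid M := by omega
        subst hk2
        unfold sq
        simp only [hrow, hcol]
        norm_num

/-! ### Perturbation -/

theorem ev_ne2 {a b c : ℝ} (h : c ≠ 0) : ∀ᶠ δ in 𝓝[>] (0 : ℝ), a + δ * b + δ ^ 2 * c ≠ 0 := by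
  by_cases ha : a = 0
  · filter_upwards [ev_ne (a := b) (b := c) (Or.inr h), self_mem_nhdsWithin] with δ h1 h2
    have h2 : 0 < δ := h2
    rw [ha, show 0 + δ * b + δ ^ 2 * c = δ * (b + δ * c) by ring]
    exact mul_ne_zero h2.ne' h1
  · have h1 : Tendsto (fun δ : ℝ => a + δ * b + δ ^ 2 * c) (𝓝[>] (0 : ℝ))
        (𝓝 (a + 0 * b + 0 ^ 2 * c)) := by
      apply Tendsto.mono_left _ nhdsWithin_le_nhds
      apply Continuous.tendsto (f := fun δ : ℝ => a + δ * b + δ ^ 2 * c)
      fun_prop
    apply h1.eventually_ne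
    simpa using ha

/-- The perturbed drawing. -/
noncomputable def pert (p : ℕ → ℝ × ℝ) (δ : ℝ) (v : ℕ) : ℝ × ℝ :=
  ((p v).1 + δ * v, (p v).2 + δ * (v : ℝ) ^ 2)

theorem red_of_strict {p : ℕ → ℝ × ℝ} (h : Strict M p) : Realizable (red M) := by
  have hcont : ∀ e : ℕ × ℕ, Tendsto (fun δ => sq (pert p δ) e) (𝓝[>] (0 : ℝ)) (𝓝 (sq p e)) := by
    intro e
    have h1 : Continuous fun δ : ℝ => sq (pert p δ) e := by
      unfold sq pert
      fun_prop
    have h2 : sq (pert p 0) e = sq p e := by
      unfold sq pert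
      simp
    rw [← h2]
    exact Tendsto.mono_left (h1.tendsto 0) nhdsWithin_le_nhds
  have ev : ∀ᶠ δ in 𝓝[>] (0 : ℝ),
      (∀ i < M.length + 1, ∀ k < 2 * wid M + 1,
        (sh M i k = true → sq (pert p δ) (2 * i, 2 * k + 1) < 1) ∧
        (sh M i k = false → 1 < sq (pert p δ) (2 * i, 2 * k + 1))) ∧
      (∀ u < 2 * (M.length + 2 * wid M + 1), ∀ v < 2 * (M.length + 2 * wid M + 1), u ≠ v →
        (pert p δ u).1 ≠ (pert p δ v).1) ∧
      (∀ u < 2 * (M.length + 2 * wid M + 1), ∀ v < 2 * (M.length + 2 * wid M + 1),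
        ∀ w < 2 * (M.length + 2 * wid M + 1), u ≠ v → u ≠ w → v ≠ w →
        D (pert p δ u) (pert p δ v) (pert p δ w) ≠ 0) := by
    refine Filter.Eventually.and ?_ (Filter.Eventually.and ?_ ?_)
    · refine ev_all fun i hi => ev_all fun k hk => ?_
      refine Filter.Eventually.and ?_ ?_
      · by_cases hsh : sh M i k = true
        · filter_upwards [(hcont (2 * i, 2 * k + 1)).eventually
            (gt_mem_nhds (h.s i (by omega) k (by omega) hsh))] with δ hδ _
          exact hδ
        · exact Filter.Eventually.of_forall fun δ h1 => absurd h1 hsh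
      · by_cases hsh : sh M i k = false
        · filter_upwards [(hcont (2 * i, 2 * k + 1)).eventually
            (lt_mem_nhds (h.l i (by omega) k (by omega) hsh))] with δ hδ _
          exact hδ
        · exact Filter.Eventually.of_forall fun δ h1 => absurd h1 hsh
    · refine ev_all fun u hu => ev_all fun v hv => ?_
      by_cases huv : u = v
      · exact Filter.Eventually.of_forall fun δ h1 => absurd huv h1
      · have h1 : (u : ℝ) - v ≠ 0 := sub_ne_zero.2 (by exact_mod_cast huv)
        filter_upwards [ev_ne (a := (p u).1 - (p v).1) (b := (u : ℝ) - v) (Or.inr h1)] with δ hδ _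
        intro h2
        apply hδ
        unfold pert at h2
        simp only at h2
        linear_combination h2
    · refine ev_all fun u hu => ev_all fun v hv => ev_all fun w hw => ?_
      by_cases huv : u = v
      · exact Filter.Eventually.of_forall fun δ h1 => absurd huv h1
      by_cases huw : u = w
      · exact Filter.Eventually.of_forall fun δ _ h1 => absurd huw h1
      by_cases hvw : v = w
      · exact Filter.Eventually.of_forall fun δ _ _ h1 => absurd hvw h1
      have h1 : ((v : ℝ) - u) * ((w : ℝ) - u) * ((w : ℝ) - v) ≠ 0 := by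
        refine mul_ne_zero (mul_ne_zero ?_ ?_) ?_
        · exact sub_ne_zero.2 (by exact_mod_cast Ne.symm huv)
        · exact sub_ne_zero.2 (by exact_mod_cast Ne.symm huw)
        · exact sub_ne_zero.2 (by exact_mod_cast Ne.symm hvw)
      filter_upwards [ev_ne2 (a := D (p u) (p v) (p w))
        (b := ((v : ℝ) - u) * ((p w).2 - (p u).2) + ((p v).1 - (p u).1) * ((w : ℝ) ^ 2 - u ^ 2) -
          (((v : ℝ) ^ 2 - u ^ 2) * ((p w).1 - (p u).1) + ((p v).2 - (p u).2) * ((w : ℝ) - u)))
        h1] with δ hδ _ _ _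
      intro h2
      apply hδ
      rw [← h2]
      unfold D pert
      simp only
      ring
  obtain ⟨δ, e1, e2, e3⟩ := ev.exists
  have hlt : ∀ v ∈ vts M, v < 2 * (M.length + 2 * wid M + 1) := by
    intro v hv
    rcases mem_vts.1 hv with ⟨i, hi, rfl⟩ | ⟨k, hk, rfl⟩ <;> omega
  refine ⟨pert p δ, ⟨?_, ?_⟩, ?_, ?_⟩
  · intro u hu v hv huv
    by_contra hne
    exact e2 u (hlt u hu) v (hlt v hv) hne (by rw [huv])
  · intro e he w hw h1 h2 h3
    have h4 := (isInst_red M).1 e he
    rw [mem_seg_iff] at h3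
    exact e3 e.1 (hlt _ h4.1) e.2 (hlt _ h4.2.1) w (hlt w hw) h4.2.2 (Ne.symm h1) (Ne.symm h2) h3.1
  · intro e he
    obtain ⟨i, hi, k, hk, rfl, h1⟩ := mem_short.1 he
    exact len_le.2 ((e1 i (by omega) k (by omega)).1 h1).le
  · intro e he
    obtain ⟨i, hi, k, hk, rfl, h1⟩ := mem_long.1 he
    exact lt_len.2 ((e1 i (by omega) k (by omega)).2 h1)

theorem red_of_SRN {m : ℕ} (hM : Rect m M) (h : SRN 2 M) : Realizable (red M) := by
  obtain ⟨p, hp⟩ := exists_strict hM h
  exact red_of_strict hp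

end Pool.Agent.NPC.Q328.LS
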