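import Pool.Agent.Q328.LS.Exist

/-!
# Membership in `∃ℝ`, and polynomial time of the reduction
-/

namespace Pool.Agent.NPC.Q328.LS

open Pool.Agent.NPC Pool.Agent.NPC.ER Pool.Agent.NPC.ER.Pat
open Pool.Agent.NPC.ER.GPP (Same IsDrawing D vx subT neF holds_neF avF holds_avF poly_two poly_subT
  poly_neF poly_avF)
open Pool.Agent.NPC.H670R2 (ff tt conj holds_ff holds_tt holds_conj poly_conj poly_tvar poly_tadd
  poly_tmul poly_tneg poly_eq poly_lt poly_not poly_and poly_or poly_le not_etr_ff)

/-! ### The formula -/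

/-- The squared distance of two points. -/
def sqT (u v : ℕ) : Tm :=
  Tm.add (Tm.mul (subT (2 * u) (2 * v)) (subT (2 * u) (2 * v)))
    (Tm.mul (subT (2 * u + 1) (2 * v + 1)) (subT (2 * u + 1) (2 * v + 1)))

theorem eval_sqT (x : ℕ → ℝ) (u v : ℕ) : (sqT u v).eval x = sq (vx x) (u, v) := by
  simp only [sqT, subT, Tm.eval, sq, vx]
  ring

/-- The list of conditions. -/
def conds (G : Inst) : List Fm :=
  (G.1.flatMap fun u => G.1.map fun v => if u = v then tt else neF u v) ++
  (((G.2.1 ++ G.2.2).flatMap fun e => G.1.map fun w =>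
    if w = e.1 ∨ w = e.2 then tt else avF e.1 e.2 w) ++
  ((G.2.1.map fun e => Fm.le (sqT e.1 e.2) Tm.one) ++
    G.2.2.map fun e => Fm.lt Tm.one (sqT e.1 e.2)))

theorem conds_iff (G : Inst) (x : ℕ → ℝ) : (∀ φ ∈ conds G, φ.Holds x) ↔
    IsDrawing G.1 (G.2.1 ++ G.2.2) (vx x) ∧ (∀ e ∈ G.2.1, len (vx x) e ≤ 1) ∧
      ∀ e ∈ G.2.2, 1 < len (vx x) e := by
  unfold conds
  constructor
  · intro h
    refine ⟨⟨?_, ?_⟩, ?_, ?_⟩
    · intro u hu v hv huv
      by_contra hne
      have := h _ (List.mem_append.2 (Or.inl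
        (List.mem_flatMap.2 ⟨u, hu, List.mem_map.2 ⟨v, hv, rfl⟩⟩)))
      rw [if_neg hne, holds_neF] at this
      exact this huv
    · intro e he w hw h1 h2
      have := h _ (List.mem_append.2 (Or.inr (List.mem_append.2 (Or.inl
        (List.mem_flatMap.2 ⟨e, he, List.mem_map.2 ⟨w, hw, rfl⟩⟩)))))
      rw [if_neg (by rintro (h3 | h3); exacts [h1 h3, h2 h3]), holds_avF] at this
      exact this
    · intro e he
      have := h _ (List.mem_append.2 (Or.inr (List.mem_append.2 (Or.inr (List.mem_append.2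
        (Or.inl (List.mem_map.2 ⟨e, he, rfl⟩)))))))
      simp only [Fm.Holds, eval_sqT, Tm.eval] at this
      exact len_le.2 this
    · intro e he
      have := h _ (List.mem_append.2 (Or.inr (List.mem_append.2 (Or.inr (List.mem_append.2
        (Or.inr (List.mem_map.2 ⟨e, he, rfl⟩)))))))
      simp only [Fm.Holds, eval_sqT, Tm.eval] at this
      exact lt_len.2 this
  · rintro ⟨hd, h2, h3⟩ φ hφ
    rw [List.mem_append, List.mem_append, List.mem_append, List.mem_flatMap, List.mem_flatMap,
      List.mem_map, List.mem_map] at hφ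
    rcases hφ with ⟨u, hu, hφ⟩ | ⟨e, he, hφ⟩ | ⟨e, he, rfl⟩ | ⟨e, he, rfl⟩
    · obtain ⟨v, hv, rfl⟩ := List.mem_map.1 hφ
      split_ifs with h
      · exact holds_tt x
      · rw [holds_neF]
        exact fun h3 => h (hd.inj u hu v hv h3)
    · obtain ⟨w, hw, rfl⟩ := List.mem_map.1 hφ
      split_ifs with h
      · exact holds_tt x
      · push Not at h
        rw [holds_avF]
        exact hd.avoid e he w hw h.1 h.2
    · simp only [Fm.Holds, eval_sqT, Tm.eval]
      exact len_le.1 (h2 e he)
    · simp only [Fm.Holds, eval_sqT, Tm.eval]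
      exact lt_len.1 (h3 e he)

/-! ### The test for instances -/

/-- The test for instances. -/
def instB (G : Inst) : Bool :=
  ((G.2.1 ++ G.2.2).all fun e =>
    (decide (e.1 ∈ G.1) && decide (e.2 ∈ G.1)) && !decide (e.1 = e.2)) &&
    G.2.1.all fun e => G.2.2.all fun f => !decide (e = f ∨ e = (f.2, f.1))

theorem instB_iff (G : Inst) : instB G = true ↔ IsInst G := by
  unfold instB IsInst Same
  simp only [List.all_eq_true, decide_eq_true_eq, Bool.and_eq_true, Bool.not_eq_true',
    decide_eq_false_iff_not, and_assoc, ne_eq]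

/-- Adjacency, as a Boolean. -/
def adjb (G : Inst) (u v : ℕ) : Bool :=
  decide ((u, v) ∈ G.2.1 ++ G.2.2) || decide ((v, u) ∈ G.2.1 ++ G.2.2)

theorem adjb_iff (G : Inst) (u v : ℕ) : adjb G u v = true ↔ Adj G u v := by
  unfold adjb Adj
  simp

/-- The first vertex. -/
def hd (G : Inst) : ℕ := G.1.getD 0 0

/-- The test for complete bipartite graphs. -/
def cbB (G : Inst) : Bool :=
  (!decide (G.1.length = 0)) && ((G.1.any fun v => adjb G (hd G) v) &&
    G.1.all fun u => G.1.all fun v =>
      decide (adjb G u v = (adjb G (hd G) u != adjb G (hd G) v)))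

theorem cbB_iff {G : Inst} (hG : IsInst G) : cbB G = true ↔ IsCompleteBipartite G := by
  classical
  have hV : ∀ u v, Adj G u v → u ∈ G.1 ∧ v ∈ G.1 := by
    rintro u v (h | h)
    · exact ⟨(hG.1 _ h).1, (hG.1 _ h).2.1⟩
    · exact ⟨(hG.1 _ h).2.1, (hG.1 _ h).1⟩
  unfold cbB
  simp only [Bool.and_eq_true, Bool.not_eq_true', decide_eq_false_iff_not, List.any_eq_true,
    List.all_eq_true, decide_eq_true_eq]
  constructor
  · rintro ⟨h0, ⟨w, hw, hw'⟩, h⟩
    have hhd : hd G ∈ G.1 := by
      unfold hd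
      rw [List.getD_eq_getElem _ _ (by omega)]
      exact List.getElem_mem _
    have hself : adjb G (hd G) (hd G) = false := by
      have := h _ hhd _ hhd
      simpa using this
    refine ⟨(G.1.filter fun v => !adjb G (hd G) v).toFinset,
      (G.1.filter fun v => adjb G (hd G) v).toFinset, ⟨hd G, ?_⟩, ⟨w, ?_⟩, ?_, ?_, ?_⟩
    · simp [hhd, hself]
    · simp [hw, hw']
    · rw [Finset.disjoint_left]
      intro a h1 h2
      simp only [List.mem_toFinset, List.mem_filter, Bool.not_eq_true'] at h1 h2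
      rw [h1.2] at h2
      exact absurd h2.2 (by decide)
    · intro v
      simp only [List.mem_toFinset, List.mem_filter, Bool.not_eq_true']
      cases adjb G (hd G) v <;> simp
    · intro u v
      simp only [List.mem_toFinset, List.mem_filter, Bool.not_eq_true']
      constructor
      · intro h1
        obtain ⟨hu, hv⟩ := hV u v h1
        have h2 := h u hu v hv
        rw [(adjb_iff G u v).2 h1] at h2
        simp only [hu, hv, true_and]
        revert h2
        cases adjb G (hd G) u <;> cases adjb G (hd G) v <;> simp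
      · intro h1
        rw [← adjb_iff]
        rcases h1 with ⟨⟨hu, h1⟩, hv, h2⟩ | ⟨⟨hu, h1⟩, hv, h2⟩
        · rw [h u hu v hv, h1, h2]; rfl
        · rw [h u hu v hv, h1, h2]; rfl
  · rintro ⟨A, B, hA, hB, hAB, hV', h⟩
    have hne : G.1.length ≠ 0 := by
      obtain ⟨a, ha⟩ := hA
      have := (hV' a).2 (Or.inl ha)
      intro h0
      rw [List.length_eq_zero_iff] at h0
      rw [h0] at this
      simp at this
    have hhd : hd G ∈ G.1 := by
      unfold hd
      rw [List.getD_eq_getElem _ _ (by omega)]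
      exact List.getElem_mem _
    have hdis : ∀ v, v ∈ A → v ∈ B → False := fun v h1 h2 => Finset.disjoint_left.1 hAB h1 h2
    have hcase := (hV' _).1 hhd
    refine ⟨hne, ?_, ?_⟩
    · rcases hcase with h1 | h1
      · obtain ⟨b, hb⟩ := hB
        exact ⟨b, (hV' b).2 (Or.inr hb), (adjb_iff _ _ _).2 ((h _ _).2 (Or.inl ⟨h1, hb⟩))⟩
      · obtain ⟨a, ha⟩ := hA
        exact ⟨a, (hV' a).2 (Or.inl ha), (adjb_iff _ _ _).2 ((h _ _).2 (Or.inr ⟨h1, ha⟩))⟩
    · intro u hu v hv
      have key : ∀ w ∈ G.1, adjb G (hd G) w = true ↔ ((hd G ∈ A ∧ w ∈ B) ∨ (hd G ∈ B ∧ w ∈ A)) :=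
        fun w _ => (adjb_iff _ _ _).trans (h _ _)
      have k1 := key u hu
      have k2 := key v hv
      have k3 := (adjb_iff G u v).trans (h u v)
      have cu := (hV' u).1 hu
      have cv := (hV' v).1 hv
      have du := hdis u
      have dv := hdis v
      have dh := hdis (hd G)
      cases h1 : adjb G (hd G) u <;> cases h2 : adjb G (hd G) v <;> cases h3 : adjb G u v <;>
        rw [h1] at k1 <;> rw [h2] at k2 <;> rw [h3] at k3 <;>
        first
          | rfl
          | (exfalso; simp only [reduceCtorEq, false_iff, true_iff] at k1 k2 k3; tauto)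

/-- The existential sentence. -/
def form (G : Inst) : Fm := if (instB G && cbB G) = true then conj (conds G) else ff

theorem form_correct (G : Inst) :
    (IsInst G ∧ IsCompleteBipartite G ∧ Realizable G) ↔ ETR (form G) := by
  unfold form
  by_cases hI : IsInst G
  · by_cases hC : IsCompleteBipartite G
    · rw [if_pos (by rw [(instB_iff G).2 hI, (cbB_iff hI).2 hC]; rfl)]
      unfold ETR Realizable
      simp only [holds_conj, conds_iff]
      constructor
      · rintro ⟨-, -, p, hp⟩
        refine ⟨fun n => if n % 2 = 0 then (p (n / 2)).1 else (p (n / 2)).2, ?_⟩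
        have hv : vx (fun n => if n % 2 = 0 then (p (n / 2)).1 else (p (n / 2)).2) = p := by
          funext v
          unfold vx
          have e1 : 2 * v % 2 = 0 := by omega
          have e2 : (2 * v + 1) % 2 = 1 := by omega
          have e3 : 2 * v / 2 = v := by omega
          have e4 : (2 * v + 1) / 2 = v := by omega
          simp only [e1, e2, e3, e4]
          rfl
        rw [hv]
        exact hp
      · rintro ⟨x, hx⟩
        exact ⟨hI, hC, vx x, hx⟩
    · have h1 : cbB G = false := by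
        rw [← Bool.not_eq_true, cbB_iff hI]; exact hC
      rw [if_neg (by rw [h1]; simp)]
      exact ⟨fun h => absurd h.2.1 hC, fun h => absurd h not_etr_ff⟩
  · have h1 : instB G = false := by
      rw [← Bool.not_eq_true, instB_iff]; exact hI
    rw [if_neg (by rw [h1]; simp)]
    exact ⟨fun h => absurd h.1 hI, fun h => absurd h not_etr_ff⟩

/-! ### Polynomial time -/

section

variable {α : Type} [TEnc α]

theorem poly_sqT {u v : α → ℕ} (hu : Poly u) (hv : Poly v) : Poly (fun a => sqT (u a) (v a)) := by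
  have h1 := poly_subT (poly_two hu) (poly_two hv)
  have h2 := poly_subT (Poly.succ (poly_two hu)) (Poly.succ (poly_two hv))
  exact poly_tadd (poly_tmul h1 h1) (poly_tmul h2 h2)

theorem poly_conds : Poly conds := by
  have hV : Poly (fun G : Inst => G.1) := Poly.fst Poly.id
  have hS : Poly (fun G : Inst => G.2.1) := Poly.fst (Poly.snd Poly.id)
  have hL : Poly (fun G : Inst => G.2.2) := Poly.snd (Poly.snd Poly.id)
  refine Poly.append ?_ (Poly.append ?_ (Poly.append ?_ ?_))
  · refine Poly.flatMap (F := fun (G : Inst) (u : ℕ) => G.1.map fun v =>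
      if u = v then tt else neF u v) hV ?_
    refine Poly.map (F := fun (p : Inst × ℕ) (v : ℕ) => if p.2 = v then tt else neF p.2 v)
      (hV.comp (Poly.fst Poly.id)) ?_
    exact Poly.ite (Poly.decide_eq (Poly.snd (Poly.fst Poly.id)) (Poly.snd Poly.id))
      (Poly.const _) (poly_neF (Poly.snd (Poly.fst Poly.id)) (Poly.snd Poly.id))
  · refine Poly.flatMap (F := fun (G : Inst) (e : ℕ × ℕ) => G.1.map fun w =>
      if w = e.1 ∨ w = e.2 then tt else avF e.1 e.2 w) (Poly.append hS hL) ?_
    refine Poly.map (F := fun (p : Inst × ℕ × ℕ) (w : ℕ) => if w = p.2.1 ∨ w = p.2.2 then tt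
      else avF p.2.1 p.2.2 w) (hV.comp (Poly.fst Poly.id)) ?_
    have e1 : Poly (fun q : (Inst × ℕ × ℕ) × ℕ => q.1.2.1) :=
      Poly.fst (Poly.snd (Poly.fst Poly.id))
    have e2 : Poly (fun q : (Inst × ℕ × ℕ) × ℕ => q.1.2.2) :=
      Poly.snd (Poly.snd (Poly.fst Poly.id))
    have w : Poly (fun q : (Inst × ℕ × ℕ) × ℕ => q.2) := Poly.snd Poly.id
    exact Poly.ite (Poly.decide_or (Poly.decide_eq w e1) (Poly.decide_eq w e2))
      (Poly.const _) (poly_avF e1 e2 w)
  · exact Poly.map (F := fun (_ : Inst) (e : ℕ × ℕ) => Fm.le (sqT e.1 e.2) Tm.one) hS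
      (poly_le (poly_sqT (Poly.fst (Poly.snd Poly.id)) (Poly.snd (Poly.snd Poly.id)))
        (Poly.const _))
  · exact Poly.map (F := fun (_ : Inst) (e : ℕ × ℕ) => Fm.lt Tm.one (sqT e.1 e.2)) hL
      (poly_lt (Poly.const _)
        (poly_sqT (Poly.fst (Poly.snd Poly.id)) (Poly.snd (Poly.snd Poly.id))))

theorem poly_instB : Poly instB := by
  have hS : Poly (fun G : Inst => G.2.1) := Poly.fst (Poly.snd Poly.id)
  have hL : Poly (fun G : Inst => G.2.2) := Poly.snd (Poly.snd Poly.id)
  have h1 : Poly (fun p : Inst × (ℕ × ℕ) => p.1.1) := Poly.fst (Poly.fst Poly.id)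
  have e1 : Poly (fun p : Inst × (ℕ × ℕ) => p.2.1) := Poly.fst (Poly.snd Poly.id)
  have e2 : Poly (fun p : Inst × (ℕ × ℕ) => p.2.2) := Poly.snd (Poly.snd Poly.id)
  refine Poly.and (Poly.all (p := fun (G : Inst) (e : ℕ × ℕ) =>
      (decide (e.1 ∈ G.1) && decide (e.2 ∈ G.1)) && !decide (e.1 = e.2)) (Poly.append hS hL)
      (Poly.and (Poly.and (Poly.decide_mem e1 h1) (Poly.decide_mem e2 h1))
        (Poly.not (Poly.decide_eq e1 e2)))) ?_
  refine Poly.all (p := fun (G : Inst) (e : ℕ × ℕ) => G.2.2.all fun f =>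
    !decide (e = f ∨ e = (f.2, f.1))) hS ?_
  refine Poly.all (p := fun (p : Inst × (ℕ × ℕ)) (f : ℕ × ℕ) =>
    !decide (p.2 = f ∨ p.2 = (f.2, f.1))) (hL.comp (Poly.fst Poly.id)) ?_
  have a : Poly (fun q : (Inst × (ℕ × ℕ)) × (ℕ × ℕ) => q.1.2) := Poly.snd (Poly.fst Poly.id)
  have f : Poly (fun q : (Inst × (ℕ × ℕ)) × (ℕ × ℕ) => q.2) := Poly.snd Poly.id
  exact Poly.not (Poly.decide_or (Poly.decide_eq a f)
    (Poly.decide_eq a (Poly.pair (Poly.snd f) (Poly.fst f))))

theorem poly_adjb {G : α → Inst} {u v : α → ℕ} (hG : Poly G) (hu : Poly u) (hv : Poly v) :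
    Poly (fun a => adjb (G a) (u a) (v a)) := by
  have hE : Poly (fun a => (G a).2.1 ++ (G a).2.2) :=
    Poly.append (Poly.fst (Poly.snd hG)) (Poly.snd (Poly.snd hG))
  exact Poly.or ((Poly.decide_mem (Poly.pair hu hv) hE).congr fun _ => decide_eq_decide.2 Iff.rfl)
    ((Poly.decide_mem (Poly.pair hv hu) hE).congr fun _ => decide_eq_decide.2 Iff.rfl)

theorem poly_hd {G : α → Inst} (hG : Poly G) : Poly (fun a => hd (G a)) :=
  Poly.getD (Poly.fst hG) (Poly.const 0) (Poly.const 0)

theorem poly_cbB : Poly cbB := by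
  have hV : Poly (fun G : Inst => G.1) := Poly.fst Poly.id
  refine Poly.and (Poly.not (Poly.decide_eq (Poly.length hV) (Poly.const 0))) (Poly.and ?_ ?_)
  · exact Poly.any (p := fun (G : Inst) (v : ℕ) => adjb G (hd G) v) hV
      (poly_adjb (Poly.fst Poly.id) (poly_hd (Poly.fst Poly.id)) (Poly.snd Poly.id))
  · refine Poly.all (p := fun (G : Inst) (u : ℕ) => G.1.all fun v =>
      decide (adjb G u v = (adjb G (hd G) u != adjb G (hd G) v))) hV ?_
    refine Poly.all (p := fun (p : Inst × ℕ) (v : ℕ) =>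
      decide (adjb p.1 p.2 v = (adjb p.1 (hd p.1) p.2 != adjb p.1 (hd p.1) v)))
      (hV.comp (Poly.fst Poly.id)) ?_
    have g : Poly (fun q : (Inst × ℕ) × ℕ => q.1.1) := Poly.fst (Poly.fst Poly.id)
    have u : Poly (fun q : (Inst × ℕ) × ℕ => q.1.2) := Poly.snd (Poly.fst Poly.id)
    have v : Poly (fun q : (Inst × ℕ) × ℕ => q.2) := Poly.snd Poly.id
    have a1 := poly_adjb g u v
    have a2 := poly_adjb g (poly_hd g) u
    have a3 := poly_adjb g (poly_hd g) v
    refine Poly.decide_eq a1 ?_
    refine (Poly.not (Poly.decide_eq a2 a3)).congr fun q => ?_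
    cases adjb q.1.1 (hd q.1.1) q.1.2 <;> cases adjb q.1.1 (hd q.1.1) q.2 <;> rfl

theorem poly_form : Poly form := by
  unfold form
  exact Poly.ite (Poly.decide_bool (Poly.and poly_instB poly_cbB)) (poly_conj poly_conds)
    (Poly.const _)

end

/-- Membership in `∃ℝ`. -/
theorem ls_mem : InER (lang fun G : Inst => IsInst G ∧ IsCompleteBipartite G ∧ Realizable G) :=
  H670R2.InER.of_poly poly_form form_correct

/-! ### The reduction is computed in polynomial time -/

theorem poly_ent' {α : Type} [TEnc α] {M : α → List (List Bool)} {i j : α → ℕ} (hM : Poly M)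
    (hi : Poly i) (hj : Poly j) : Poly (fun a => ent (M a) (i a) (j a)) :=
  Poly.getD (Poly.getD hM hi (Poly.const _)) hj (Poly.const _)

theorem poly_wid' {α : Type} [TEnc α] {M : α → List (List Bool)} (hM : Poly M) :
    Poly (fun a => wid (M a)) := by
  have h0 : Poly (fun M : List (List Bool) => M.headD []) :=
    (Poly.optCases (Poly.head? Poly.id) (Poly.const []) (h := fun _ b => b)
      (Poly.snd Poly.id)).congr fun M => by cases M <;> rfl
  exact Poly.length (h0.comp hM)

theorem poly_sh {α : Type} [TEnc α] {M : α → List (List Bool)} {i k : α → ℕ} (hM : Poly M)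
    (hi : Poly i) (hk : Poly k) : Poly (fun a => sh (M a) (i a) (k a)) := by
  unfold sh
  refine Poly.and (Poly.decide_and (Poly.decide_lt hi (Poly.length hM))
    (Poly.decide_lt hk (poly_two (poly_wid' hM)))) ?_
  have h2 := poly_ent' hM hi (Poly.div hk (Poly.const 2))
  exact Poly.ite (Poly.decide_eq (Poly.mod hk (Poly.const 2)) (Poly.const 0)) h2 (Poly.not h2)

theorem upoly_rows : UPoly (fun M : List (List Bool) => M.length + 1) :=
  UPoly.add (UPoly.length Poly.id) (UPoly.const 1)

theorem upoly_cols : UPoly (fun M : List (List Bool) => 2 * wid M + 1) := by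
  have h0 : Poly (fun M : List (List Bool) => M.headD []) :=
    (Poly.optCases (Poly.head? Poly.id) (Poly.const []) (h := fun _ b => b)
      (Poly.snd Poly.id)).congr fun M => by cases M <;> rfl
  exact UPoly.add (UPoly.mul (UPoly.const 2) (UPoly.length h0)) (UPoly.const 1)

theorem poly_prs : Poly prs := by
  refine Poly.flatMap (F := fun (M : List (List Bool)) (i : ℕ) =>
    (List.range (2 * wid M + 1)).map fun k => (2 * i, 2 * k + 1)) upoly_rows.range ?_
  refine Poly.map (F := fun (p : List (List Bool) × ℕ) (k : ℕ) => (2 * p.2, 2 * k + 1))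
    (upoly_cols.range.comp (Poly.fst Poly.id)) ?_
  exact Poly.pair (poly_two (Poly.snd (Poly.fst Poly.id)))
    (Poly.succ (poly_two (Poly.snd Poly.id)))

theorem poly_vts : Poly vts := by
  refine Poly.append ?_ ?_
  · exact Poly.map (F := fun (_ : List (List Bool)) (i : ℕ) => 2 * i) upoly_rows.range
      (poly_two (Poly.snd Poly.id))
  · exact Poly.map (F := fun (_ : List (List Bool)) (k : ℕ) => 2 * k + 1) upoly_cols.range
      (Poly.succ (poly_two (Poly.snd Poly.id)))

theorem poly_red : Poly red := by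
  have h : Poly (fun p : List (List Bool) × (ℕ × ℕ) => sh p.1 (p.2.1 / 2) (p.2.2 / 2)) :=
    poly_sh (Poly.fst Poly.id) (Poly.div (Poly.fst (Poly.snd Poly.id)) (Poly.const 2))
      (Poly.div (Poly.snd (Poly.snd Poly.id)) (Poly.const 2))
  exact Poly.pair poly_vts (Poly.pair (Poly.filter poly_prs h)
    (Poly.filter (p := fun M e => !sh M (e.1 / 2) (e.2 / 2)) poly_prs (Poly.not h)))

end Pool.Agent.NPC.Q328.LS
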