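import Pool.Agent.Q328.LS.Defs
import Pool.Agent.H625R2.BallG
import Pool.Agent.H606R2.GPP.Exist
import Pool.Agent.H606R2.GPP.Member

/-!
# The reduction from strict sign matrices
-/

namespace Pool.Agent.NPC.Q328.LS

open Pool.Agent.NPC Pool.Agent.NPC.ER Pool.Agent.NPC.ER.Pat
open Pool.Agent.NPC.ER.GPP (Same IsDrawing)
open scoped Topology
open Filter Matrix

/-- The squared length. -/
def sq (p : ℕ → ℝ × ℝ) (e : ℕ × ℕ) : ℝ :=
  ((p e.1).1 - (p e.2).1) ^ 2 + ((p e.1).2 - (p e.2).2) ^ 2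

theorem sq_nonneg' (p : ℕ → ℝ × ℝ) (e : ℕ × ℕ) : 0 ≤ sq p e := by
  unfold sq; positivity

theorem len_le {p : ℕ → ℝ × ℝ} {e : ℕ × ℕ} : len p e ≤ 1 ↔ sq p e ≤ 1 := by
  unfold len
  rw [Real.sqrt_le_iff, one_pow]
  exact ⟨fun h => h.2, fun h => ⟨zero_le_one, h⟩⟩

theorem lt_len {p : ℕ → ℝ × ℝ} {e : ℕ × ℕ} : 1 < len p e ↔ 1 < sq p e := by
  rw [← not_le, len_le, not_le]

/-- Whether the edge from row `i` to (signed) column `k` is short. -/
def sh (M : List (List Bool)) (i k : ℕ) : Bool :=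
  decide (i < M.length ∧ k < 2 * wid M) &&
    (if k % 2 = 0 then ent M i (k / 2) else !ent M i (k / 2))

/-- The edges of the complete bipartite graph. -/
def prs (M : List (List Bool)) : List (ℕ × ℕ) :=
  (List.range (M.length + 1)).flatMap fun i =>
    (List.range (2 * wid M + 1)).map fun k => (2 * i, 2 * k + 1)

/-- The vertices. -/
def vts (M : List (List Bool)) : List ℕ :=
  (List.range (M.length + 1)).map (fun i => 2 * i) ++
    (List.range (2 * wid M + 1)).map fun k => 2 * k + 1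

/-- The instance. -/
def red (M : List (List Bool)) : Inst :=
  (vts M, (prs M).filter (fun e => sh M (e.1 / 2) (e.2 / 2)),
    (prs M).filter (fun e => !sh M (e.1 / 2) (e.2 / 2)))

variable {M : List (List Bool)}

theorem mem_prs {e : ℕ × ℕ} : e ∈ prs M ↔
    ∃ i ≤ M.length, ∃ k ≤ 2 * wid M, e = (2 * i, 2 * k + 1) := by
  simp only [prs, List.mem_flatMap, List.mem_map, List.mem_range]
  constructor
  · rintro ⟨i, hi, k, hk, rfl⟩
    exact ⟨i, by omega, k, by omega, rfl⟩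
  · rintro ⟨i, hi, k, hk, rfl⟩
    exact ⟨i, by omega, k, by omega, rfl⟩

theorem mem_short {e : ℕ × ℕ} : e ∈ (red M).2.1 ↔
    ∃ i ≤ M.length, ∃ k ≤ 2 * wid M, e = (2 * i, 2 * k + 1) ∧ sh M i k = true := by
  simp only [red, List.mem_filter, mem_prs]
  constructor
  · rintro ⟨⟨i, hi, k, hk, rfl⟩, h⟩
    refine ⟨i, hi, k, hk, rfl, ?_⟩
    simpa [show (2 * k + 1) / 2 = k by omega] using h
  · rintro ⟨i, hi, k, hk, rfl, h⟩
    refine ⟨⟨i, hi, k, hk, rfl⟩, ?_⟩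
    simpa [show (2 * k + 1) / 2 = k by omega] using h

theorem mem_long {e : ℕ × ℕ} : e ∈ (red M).2.2 ↔
    ∃ i ≤ M.length, ∃ k ≤ 2 * wid M, e = (2 * i, 2 * k + 1) ∧ sh M i k = false := by
  simp only [red, List.mem_filter, mem_prs]
  constructor
  · rintro ⟨⟨i, hi, k, hk, rfl⟩, h⟩
    refine ⟨i, hi, k, hk, rfl, ?_⟩
    simpa [show (2 * k + 1) / 2 = k by omega] using h
  · rintro ⟨i, hi, k, hk, rfl, h⟩
    refine ⟨⟨i, hi, k, hk, rfl⟩, ?_⟩
    simpa [show (2 * k + 1) / 2 = k by omega] using h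

theorem mem_edges {e : ℕ × ℕ} : e ∈ (red M).2.1 ++ (red M).2.2 ↔
    ∃ i ≤ M.length, ∃ k ≤ 2 * wid M, e = (2 * i, 2 * k + 1) := by
  rw [List.mem_append, mem_short, mem_long]
  constructor
  · rintro (⟨i, hi, k, hk, rfl, -⟩ | ⟨i, hi, k, hk, rfl, -⟩) <;> exact ⟨i, hi, k, hk, rfl⟩
  · rintro ⟨i, hi, k, hk, rfl⟩
    cases h : sh M i k
    · exact Or.inr ⟨i, hi, k, hk, rfl, h⟩
    · exact Or.inl ⟨i, hi, k, hk, rfl, h⟩

theorem mem_vts {v : ℕ} : v ∈ vts M ↔
    (∃ i ≤ M.length, v = 2 * i) ∨ ∃ k ≤ 2 * wid M, v = 2 * k + 1 := by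
  simp only [vts, List.mem_append, List.mem_map, List.mem_range]
  constructor
  · rintro (⟨i, hi, rfl⟩ | ⟨k, hk, rfl⟩)
    · exact Or.inl ⟨i, by omega, rfl⟩
    · exact Or.inr ⟨k, by omega, rfl⟩
  · rintro (⟨i, hi, rfl⟩ | ⟨k, hk, rfl⟩)
    · exact Or.inl ⟨i, by omega, rfl⟩
    · exact Or.inr ⟨k, by omega, rfl⟩

theorem isInst_red (M : List (List Bool)) : IsInst (red M) := by
  constructor
  · intro e he
    rw [mem_edges] at he
    obtain ⟨i, hi, k, hk, rfl⟩ := he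
    refine ⟨mem_vts.2 (Or.inl ⟨i, hi, rfl⟩), mem_vts.2 (Or.inr ⟨k, hk, rfl⟩), ?_⟩
    simp only
    omega
  · intro e he f hf h
    rw [mem_short] at he
    rw [mem_long] at hf
    obtain ⟨i, hi, k, hk, rfl, h1⟩ := he
    obtain ⟨i', hi', k', hk', rfl, h2⟩ := hf
    rcases h with h | h
    · simp only [Prod.mk.injEq] at h
      have e1 : i = i' := by omega
      have e2 : k = k' := by omega
      subst e1 e2
      rw [h1] at h2
      exact absurd h2 (by decide)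
    · simp only [Prod.mk.injEq] at h
      omega

theorem isCB_red (M : List (List Bool)) : IsCompleteBipartite (red M) := by
  classical
  refine ⟨((List.range (M.length + 1)).map (fun i => 2 * i)).toFinset,
    ((List.range (2 * wid M + 1)).map fun k => 2 * k + 1).toFinset, ⟨0, ?_⟩, ⟨1, ?_⟩, ?_, ?_, ?_⟩
  · simp
  · simp
  · rw [Finset.disjoint_left]
    intro a h1 h2
    simp only [List.mem_toFinset, List.mem_map] at h1 h2
    obtain ⟨i, -, rfl⟩ := h1
    obtain ⟨k, -, h⟩ := h2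
    omega
  · intro v
    change v ∈ vts M ↔ _
    simp only [vts, List.mem_append, List.mem_toFinset]
  · intro u v
    unfold Adj
    rw [mem_edges, mem_edges]
    simp only [List.mem_toFinset, List.mem_map, List.mem_range, Prod.mk.injEq]
    constructor
    · rintro (⟨i, hi, k, hk, rfl, rfl⟩ | ⟨i, hi, k, hk, rfl, rfl⟩)
      · exact Or.inl ⟨⟨i, by omega, rfl⟩, k, by omega, rfl⟩
      · exact Or.inr ⟨⟨k, by omega, rfl⟩, i, by omega, rfl⟩
    · rintro (⟨⟨i, hi, rfl⟩, k, hk, rfl⟩ | ⟨⟨k, hk, rfl⟩, i, hi, rfl⟩)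
      · exact Or.inl ⟨i, by omega, k, by omega, rfl, rfl⟩
      · exact Or.inr ⟨i, by omega, k, by omega, rfl, rfl⟩

/-! ### Soundness -/

theorem SR_of_red {m : ℕ} (hM : Rect m M) (h : Realizable (red M)) : SR 3 M := by
  obtain ⟨p, -, hs, hl⟩ := h
  refine ⟨fun i => ![1, (p (2 * i)).1, (p (2 * i)).2], fun j =>
    ![((p (4 * j + 3)).1 ^ 2 + (p (4 * j + 3)).2 ^ 2) -
        ((p (4 * j + 1)).1 ^ 2 + (p (4 * j + 1)).2 ^ 2),
      2 * ((p (4 * j + 1)).1 - (p (4 * j + 3)).1), 2 * ((p (4 * j + 1)).2 - (p (4 * j + 3)).2)],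
    fun i hi j hj => ?_⟩
  have hjw : j < wid M := by rwa [wid_eq hM hi] at hj
  have e1 : (2 * (2 * j) + 1) = 4 * j + 1 := by ring
  have e2 : (2 * (2 * j + 1) + 1) = 4 * j + 3 := by ring
  have key : ∀ k, k ≤ 2 * wid M → (sh M i k = true → sq p (2 * i, 2 * k + 1) ≤ 1) ∧
      (sh M i k = false → 1 < sq p (2 * i, 2 * k + 1)) := by
    intro k hk
    refine ⟨fun h => len_le.1 (hs _ (mem_short.2 ⟨i, by omega, k, hk, rfl, h⟩)),
      fun h => lt_len.1 (hl _ (mem_long.2 ⟨i, by omega, k, hk, rfl, h⟩))⟩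
  have k1 := key (2 * j) (by omega)
  have k2 := key (2 * j + 1) (by omega)
  have s1 : sh M i (2 * j) = M[i][j] := by
    unfold sh
    rw [decide_eq_true (show i < M.length ∧ 2 * j < 2 * wid M from ⟨hi, by omega⟩), Bool.true_and,
      if_pos (by omega), show 2 * j / 2 = j by omega, ent_eq hi hj]
  have s2 : sh M i (2 * j + 1) = !M[i][j] := by
    unfold sh
    rw [decide_eq_true (show i < M.length ∧ 2 * j + 1 < 2 * wid M from ⟨hi, by omega⟩),
      Bool.true_and, if_neg (by omega), show (2 * j + 1) / 2 = j by omega, ent_eq hi hj]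
  rw [s1, e1] at k1
  rw [s2, e2] at k2
  have hdot : (![1, (p (2 * i)).1, (p (2 * i)).2] : Fin 3 → ℝ) ⬝ᵥ
      ![((p (4 * j + 3)).1 ^ 2 + (p (4 * j + 3)).2 ^ 2) -
        ((p (4 * j + 1)).1 ^ 2 + (p (4 * j + 1)).2 ^ 2),
      2 * ((p (4 * j + 1)).1 - (p (4 * j + 3)).1), 2 * ((p (4 * j + 1)).2 - (p (4 * j + 3)).2)] =
      sq p (2 * i, 4 * j + 3) - sq p (2 * i, 4 * j + 1) := by
    rw [dotProduct, Fin.sum_univ_three]
    simp [sq]
    ring
  simp only
  rw [hdot]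
  cases hb : M[i][j]
  · rw [hb] at k1 k2
    have := k1.2 rfl
    have := k2.1 rfl
    rw [sgn_false]
    linarith
  · rw [hb] at k1 k2
    have := k1.1 rfl
    have := k2.2 rfl
    rw [sgn_true]
    linarith

end Pool.Agent.NPC.Q328.LS
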